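import Mathlib

set_option autoImplicit false

namespace Pool.Agent.Lib.MP_349854_an

variable {X : Type} [NormedAddCommGroup X] [NormedSpace ℝ X]

/-- The slice `S(A, f, ε)` of a bounded set `A`. -/
def slice (A : Set X) (f : StrongDual ℝ X) (ε : ℝ) : Set X :=
  {x ∈ A | sSup (f '' A) - ε < f x}

/-- A sequence of nonempty subsets of `A` is determining for `A` if `A` lies in the closed convex
hull of every set that meets all members of the sequence. -/
def IsDetermining (V : ℕ → Set X) (A : Set X) : Prop :=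
  (∀ n, (V n).Nonempty ∧ V n ⊆ A) ∧
    ∀ B : Set X, (∀ n, (B ∩ V n).Nonempty) → A ⊆ closure (convexHull ℝ B)

/-- `A` is slicely countably determined. -/
def IsSCD (A : Set X) : Prop :=
  ∃ (f : ℕ → StrongDual ℝ X) (ε : ℕ → ℝ), (∀ n, 0 < ε n) ∧
    IsDetermining (fun n => slice A (f n) (ε n)) A

/-- The space `T` has a countable π-basis. -/
def HasCountablePiBasis (T : Type) [TopologicalSpace T] : Prop :=
  ∃ P : Set (Set T), P.Countable ∧ (∀ p ∈ P, IsOpen p ∧ p.Nonempty) ∧
    ∀ O : Set T, IsOpen O → O.Nonempty → ∃ p ∈ P, p ⊆ O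

end Pool.Agent.Lib.MP_349854_an
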