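import Mathlib
import Pool.Agent.Lib.MP_349854_an.Defs

/-!
A closed convex bounded SCD set without a countable π-basis for the weak topology.

Let `D` be the unit ball of the continuous functions on the Cantor set.  In the product of that
space with the plane take the closed convex hull `U` of points `(d n, s, s ^ 2)`, where `d n` runs
through a dense sequence of `D` and `s` through isolated reals accumulating at `-1, 0, 1`.  Every
generator is strongly exposed, so `U` is SCD, while over the open triangle with vertices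
`(-1, 1), (0, 0), (1, 1)` the set `U` is the product of `D` with the triangle.
-/

set_option autoImplicit false

open Set Filter Topology

namespace Pool.Agent.Lib.MP_349854_an

/-- The Cantor set. -/
abbrev K : Type := ℕ → Bool

/-- The cylinder of length `k` around `t`. -/
def cyl (t : K) (k : ℕ) : Set K := {s | ∀ i, i < k → s i = t i}

lemma isClopen_cyl (t : K) (k : ℕ) : IsClopen (cyl t k) := by
  have : cyl t k = ⋂ i ∈ Iio k, (fun s : K => s i) ⁻¹' {t i} := by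
    ext s
    simp [cyl]
  rw [this]
  exact (finite_Iio k).isClopen_biInter fun i _ =>
    (isClopen_discrete _).preimage (continuous_apply i)

/-- The part of `f` on a cylinder. -/
noncomputable def cut (f : C(K, ℝ)) (t : K) (k : ℕ) : C(K, ℝ) :=
  ⟨(cyl t k).indicator f, (isClopen_cyl t k).continuous_indicator f.continuous⟩

lemma cut_apply_of_mem (f : C(K, ℝ)) {t s : K} {k : ℕ} (h : s ∈ cyl t k) : cut f t k s = f s :=
  indicator_of_mem h _

lemma cut_apply_of_notMem (f : C(K, ℝ)) {t s : K} {k : ℕ} (h : s ∉ cyl t k) :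
    cut f t k s = 0 :=
  indicator_of_notMem h _

lemma eventually_disjoint {t t' : K} (h : t ≠ t') :
    ∀ᶠ k in atTop, ∀ k1 k2, k ≤ k1 → k ≤ k2 → ∀ s, s ∈ cyl t k1 → s ∉ cyl t' k2 := by
  obtain ⟨i, hi⟩ := Function.ne_iff.1 h
  filter_upwards [eventually_gt_atTop i] with k hk k1 k2 h1 h2 s hs hs'
  exact hi ((hs i (by omega)).symm.trans (hs' i (by omega)))

lemma finite_big (φ : StrongDual ℝ C(K, ℝ)) (f : C(K, ℝ)) {δ : ℝ} (hδ : 0 < δ) :
    {t : K | ∃ᶠ k in atTop, δ ≤ |φ (cut f t k)|}.Finite := by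
  classical
  by_contra hinf
  obtain ⟨m, hm⟩ := exists_nat_gt (‖φ‖ * ‖f‖ / δ)
  obtain ⟨F, hF, hcard⟩ := Set.Infinite.exists_subset_card_eq hinf m
  have hev : ∀ᶠ k in atTop, ∀ t ∈ F, ∀ t' ∈ F, t ≠ t' →
      ∀ k1 k2, k ≤ k1 → k ≤ k2 → ∀ s, s ∈ cyl t k1 → s ∉ cyl t' k2 := by
    rw [eventually_all_finset]
    intro t _
    rw [eventually_all_finset]
    intro t' _
    by_cases h : t = t'
    · exact Eventually.of_forall fun _ h' => absurd h h'
    · exact (eventually_disjoint h).mono fun _ h' _ => h'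
  obtain ⟨k0, hk0⟩ := hev.exists
  have hk : ∀ t ∈ F, ∃ k, k0 ≤ k ∧ δ ≤ |φ (cut f t k)| := by
    intro t ht
    have := (frequently_atTop.1 (hF ht)) k0
    exact this
  choose! k hk1 hk2 using hk
  set h : C(K, ℝ) := ∑ t ∈ F, (SignType.sign (φ (cut f t (k t))) : ℝ) • cut f t (k t) with hh
  have hnorm : ‖h‖ ≤ ‖f‖ := by
    rw [ContinuousMap.norm_le _ (norm_nonneg f)]
    intro s
    rw [hh, ContinuousMap.sum_apply]
    by_cases hs : ∃ t ∈ F, s ∈ cyl t (k t)
    · obtain ⟨t, ht, hst⟩ := hs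
      rw [Finset.sum_eq_single_of_mem t ht]
      · rw [ContinuousMap.smul_apply, cut_apply_of_mem f hst, norm_smul]
        have h1 : ‖(SignType.sign (φ (cut f t (k t))) : ℝ)‖ ≤ 1 := by
          rcases SignType.trichotomy (SignType.sign (φ (cut f t (k t)))) with h | h | h <;>
            simp [h]
        calc _ ≤ 1 * ‖f s‖ := by gcongr
          _ ≤ ‖f‖ := by rw [one_mul]; exact f.norm_coe_le_norm s
      · intro t' ht' hne
        rw [ContinuousMap.smul_apply, cut_apply_of_notMem f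
          (hk0 t ht t' ht' hne.symm _ _ (hk1 t ht) (hk1 t' ht') s hst), smul_zero]
    · push Not at hs
      rw [Finset.sum_eq_zero]
      · simp
      · intro t ht
        rw [ContinuousMap.smul_apply, cut_apply_of_notMem f (hs t ht), smul_zero]
  have hlow : (m : ℝ) * δ ≤ φ h := by
    rw [hh, map_sum]
    calc (m : ℝ) * δ = ∑ _t ∈ F, δ := by simp [hcard]
      _ ≤ _ := Finset.sum_le_sum fun t ht => by
        rw [map_smul, smul_eq_mul, sign_mul_self]
        exact hk2 t ht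
  have hup : φ h ≤ ‖φ‖ * ‖f‖ :=
    (le_abs_self _).trans ((φ.le_opNorm h).trans (by gcongr))
  rw [div_lt_iff₀ hδ] at hm
  linarith

lemma countable_bad (φ : StrongDual ℝ C(K, ℝ)) (f : C(K, ℝ)) :
    {t : K | ¬ Tendsto (fun k => φ (cut f t k)) atTop (𝓝 0)}.Countable := by
  refine (countable_iUnion fun n : ℕ =>
    (finite_big φ f (δ := 1 / ((n : ℝ) + 1)) (by positivity)).countable).mono ?_
  intro t ht
  rw [mem_ofPred_eq, Metric.tendsto_nhds] at ht
  push Not at ht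
  obtain ⟨ε, hε, ht⟩ := ht
  obtain ⟨n, hn⟩ := exists_nat_one_div_lt hε
  refine mem_iUnion.2 ⟨n, ht.mono fun k hk => ?_⟩
  rw [Real.dist_eq, sub_zero] at hk
  exact hn.le.trans hk

lemma weak_nhds {X : Type} [NormedAddCommGroup X] [NormedSpace ℝ X] (u : X)
    (N : Set (WeakSpace ℝ X)) (hN : N ∈ 𝓝 (toWeakSpace ℝ X u)) :
    ∃ Φ : Set (StrongDual ℝ X), Φ.Finite ∧ ∀ v : ℕ → X,
      (∀ φ ∈ Φ, Tendsto (fun k => φ (v k)) atTop (𝓝 (φ u))) →
        ∀ᶠ k in atTop, toWeakSpace ℝ X (v k) ∈ N := by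
  obtain ⟨M, hM, hMN⟩ := (mem_nhds_induced _ _ _).1 hN
  rw [nhds_pi, Filter.mem_pi] at hM
  obtain ⟨Φ, hΦ, t, ht, hsub⟩ := hM
  refine ⟨Φ, hΦ, fun v hv => ?_⟩
  have : ∀ᶠ k in atTop, ∀ φ ∈ Φ, φ (v k) ∈ t φ :=
    (eventually_all_finite hΦ).2 fun φ hφ => hv φ hφ (ht φ)
  exact this.mono fun k hk => hMN (hsub hk)

lemma weak_continuous {X : Type} [NormedAddCommGroup X] [NormedSpace ℝ X] (φ : StrongDual ℝ X) :
    Continuous fun x : WeakSpace ℝ X => φ ((toWeakSpace ℝ X).symm x) :=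
  WeakBilin.eval_continuous (topDualPairing ℝ X).flip φ

/-- The ambient Banach space. -/
abbrev E : Type := C(K, ℝ) × ℝ × ℝ

/-- The abscissae of the generators. -/
noncomputable def sq (i : Fin 3 × ℕ) : ℝ := ((i.1 : ℕ) : ℝ) - 1 + 1 / ((i.2 : ℝ) + 2)

lemma inv_bounds (n : ℕ) : 0 < 1 / ((n : ℝ) + 2) ∧ 1 / ((n : ℝ) + 2) ≤ 1 / 2 := by
  have : (0 : ℝ) ≤ n := Nat.cast_nonneg n
  exact ⟨by positivity, one_div_le_one_div_of_le (by norm_num) (by linarith)⟩

lemma sq_bound (i : Fin 3 × ℕ) : |sq i| ≤ 2 := by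
  obtain ⟨j, n⟩ := i
  have h := inv_bounds n
  have h1 : (0 : ℝ) ≤ ((j : ℕ) : ℝ) := Nat.cast_nonneg _
  have h2 : ((j : ℕ) : ℝ) ≤ 2 := by exact_mod_cast Nat.le_of_lt_succ j.2
  rw [abs_le]
  simp only [sq]
  constructor <;> linarith [h.1, h.2]

lemma sq_gap (i : Fin 3 × ℕ) : ∃ γ : ℝ, 0 < γ ∧ ∀ k, k ≠ i → γ ≤ (sq k - sq i) ^ 2 := by
  obtain ⟨j, n⟩ := i
  have hn : (0 : ℝ) ≤ n := Nat.cast_nonneg n
  set g : ℝ := 1 / (((n : ℝ) + 2) * ((n : ℝ) + 3)) with hg
  have hgpos : 0 < g := by positivity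
  refine ⟨g ^ 2, by positivity, ?_⟩
  rintro ⟨j', n'⟩ hne
  have hn' : (0 : ℝ) ≤ n' := Nat.cast_nonneg n'
  have key : g ≤ |sq (j', n') - sq (j, n)| := by
    have hg2 : g ≤ 1 / 2 := one_div_le_one_div_of_le (by norm_num) (by nlinarith)
    have a := inv_bounds n
    have a' := inv_bounds n'
    simp only [sq]
    rcases lt_trichotomy (j' : ℕ) (j : ℕ) with h | h | h
    · have : ((j' : ℕ) : ℝ) + 1 ≤ ((j : ℕ) : ℝ) := by exact_mod_cast h
      rw [le_abs]; right; linarith [a.1, a.2, a'.1, a'.2]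
    · have hjj : j' = j := Fin.ext h
      have hnn : n' ≠ n := fun h' => hne (by rw [hjj, h'])
      rw [h]
      have e1 : 1 / ((n : ℝ) + 2) - 1 / ((n : ℝ) + 3) = g := by
        rw [hg]; field_simp; ring
      rcases lt_or_gt_of_ne hnn with h' | h'
      · have h3 : (n' : ℝ) + 1 ≤ n := by exact_mod_cast h'
        have e2 : 1 / ((n : ℝ) + 1) ≤ 1 / ((n' : ℝ) + 2) :=
          one_div_le_one_div_of_le (by positivity) (by linarith)
        have e3 : 1 / ((n : ℝ) + 1) - 1 / ((n : ℝ) + 2) = 1 / (((n : ℝ) + 1) * ((n : ℝ) + 2)) := by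
          field_simp; ring
        have e4 : g ≤ 1 / (((n : ℝ) + 1) * ((n : ℝ) + 2)) :=
          one_div_le_one_div_of_le (by positivity) (by nlinarith)
        rw [le_abs]; left; linarith
      · have h3 : (n : ℝ) + 1 ≤ n' := by exact_mod_cast h'
        have e2 : 1 / ((n' : ℝ) + 2) ≤ 1 / ((n : ℝ) + 3) :=
          one_div_le_one_div_of_le (by positivity) (by linarith)
        rw [le_abs]; right; linarith
    · have : ((j : ℕ) : ℝ) + 1 ≤ ((j' : ℕ) : ℝ) := by exact_mod_cast h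
      rw [le_abs]; left; linarith [a.1, a.2, a'.1, a'.2]
  calc g ^ 2 ≤ |sq (j', n') - sq (j, n)| ^ 2 := by gcongr
    _ = _ := sq_abs _

/-- The generators of the convex set. -/
noncomputable def gen (d : ℕ → C(K, ℝ)) (i : Fin 3 × ℕ) : E :=
  (d (Nat.unpair i.2).1, sq i, sq i ^ 2)

/-- The convex set. -/
def U (d : ℕ → C(K, ℝ)) : Set E := closure (convexHull ℝ (range (gen d)))

lemma U_subset (d : ℕ → C(K, ℝ)) {W : Set E} (h1 : IsClosed W) (h2 : Convex ℝ W)
    (h3 : ∀ i, gen d i ∈ W) : U d ⊆ W :=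
  closure_minimal (convexHull_min (range_subset_iff.2 h3) h2) h1

lemma gen_mem (d : ℕ → C(K, ℝ)) (i : Fin 3 × ℕ) : gen d i ∈ U d :=
  subset_closure (subset_convexHull ℝ _ (mem_range_self i))

lemma convex_U (d : ℕ → C(K, ℝ)) : Convex ℝ (U d) := (convex_convexHull ℝ _).closure

lemma norm_gen (d : ℕ → C(K, ℝ)) (hd : ∀ n, ‖d n‖ ≤ 1) (i : Fin 3 × ℕ) : ‖gen d i‖ ≤ 4 := by
  have h := sq_bound i
  simp only [gen, Prod.norm_def, Real.norm_eq_abs, max_le_iff]
  refine ⟨(hd _).trans (by norm_num), h.trans (by norm_num), ?_⟩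
  rw [abs_pow]
  nlinarith [abs_nonneg (sq i)]

lemma U_bounded (d : ℕ → C(K, ℝ)) (hd : ∀ n, ‖d n‖ ≤ 1) : U d ⊆ Metric.closedBall 0 4 :=
  U_subset d Metric.isClosed_closedBall (convex_closedBall _ _) fun i => by
    simpa using norm_gen d hd i

lemma U_fst (d : ℕ → C(K, ℝ)) (hd : ∀ n, ‖d n‖ ≤ 1) {u : E} (hu : u ∈ U d) : ‖u.1‖ ≤ 1 := by
  have : U d ⊆ (ContinuousLinearMap.fst ℝ C(K, ℝ) (ℝ × ℝ)) ⁻¹' Metric.closedBall 0 1 :=
    U_subset d (Metric.isClosed_closedBall.preimage (ContinuousLinearMap.continuous _))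
      ((convex_closedBall _ _).linear_preimage
        (ContinuousLinearMap.fst ℝ C(K, ℝ) (ℝ × ℝ)).toLinearMap) fun i => by
      simpa [gen] using hd _
  simpa using this hu

/-- The first plane coordinate. -/
noncomputable def ca : StrongDual ℝ E :=
  (ContinuousLinearMap.fst ℝ ℝ ℝ).comp (ContinuousLinearMap.snd ℝ C(K, ℝ) (ℝ × ℝ))

/-- The second plane coordinate. -/
noncomputable def cb : StrongDual ℝ E :=
  (ContinuousLinearMap.snd ℝ ℝ ℝ).comp (ContinuousLinearMap.snd ℝ C(K, ℝ) (ℝ × ℝ))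

/-- The functional exposing a generator. -/
noncomputable def expo (i : Fin 3 × ℕ) : StrongDual ℝ E := (2 * sq i) • ca - cb

lemma expo_gen (d : ℕ → C(K, ℝ)) (i k : Fin 3 × ℕ) :
    expo i (gen d k) = sq i ^ 2 - (sq k - sq i) ^ 2 := by
  simp [expo, ca, cb, gen]
  ring

lemma exposed (d : ℕ → C(K, ℝ)) (hd : ∀ n, ‖d n‖ ≤ 1) (i : Fin 3 × ℕ) :
    ∃ c : ℝ, 0 < c ∧ ∀ u ∈ U d, ‖u - gen d i‖ ≤ c * (sq i ^ 2 - expo i u) := by
  obtain ⟨γ, hγ, hgap⟩ := sq_gap i
  refine ⟨8 / γ, by positivity, ?_⟩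
  have : U d ⊆ {u | ‖u - gen d i‖ ≤ 8 / γ * (sq i ^ 2 - expo i u)} := by
    refine U_subset d (isClosed_le (by fun_prop) (by fun_prop)) ?_ ?_
    · intro u hu v hv a b ha hb hab
      simp only [mem_ofPred_eq] at hu hv ⊢
      have e1 : a • u + b • v - gen d i = a • (u - gen d i) + b • (v - gen d i) := by
        rw [smul_sub, smul_sub]
        have : gen d i = a • gen d i + b • gen d i := by rw [← add_smul, hab, one_smul]
        nth_rewrite 1 [this]
        abel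
      rw [e1, map_add, map_smul, map_smul, smul_eq_mul, smul_eq_mul]
      calc _ ≤ ‖a • (u - gen d i)‖ + ‖b • (v - gen d i)‖ := norm_add_le _ _
        _ = a * ‖u - gen d i‖ + b * ‖v - gen d i‖ := by
          rw [norm_smul, norm_smul, Real.norm_of_nonneg ha, Real.norm_of_nonneg hb]
        _ ≤ a * (8 / γ * (sq i ^ 2 - expo i u)) + b * (8 / γ * (sq i ^ 2 - expo i v)) := by
          gcongr
        _ = 8 / γ * ((a + b) * sq i ^ 2 - (a * expo i u + b * expo i v)) := by ring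
        _ = _ := by rw [hab, one_mul]
    · intro k
      simp only [mem_ofPred_eq]
      rw [expo_gen]
      by_cases hk : k = i
      · subst hk; simp
      · have h1 := hgap k hk
        calc ‖gen d k - gen d i‖ ≤ ‖gen d k‖ + ‖gen d i‖ := norm_sub_le _ _
          _ ≤ 8 := by linarith [norm_gen d hd k, norm_gen d hd i]
          _ = 8 / γ * γ := by field_simp
          _ ≤ _ := by
            gcongr
            linarith
  exact fun u hu => this hu

lemma sSup_expo (d : ℕ → C(K, ℝ)) (hd : ∀ n, ‖d n‖ ≤ 1) (i : Fin 3 × ℕ) :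
    sSup (expo i '' U d) = sq i ^ 2 := by
  obtain ⟨c, hc, h⟩ := exposed d hd i
  refine IsGreatest.csSup_eq ⟨⟨gen d i, gen_mem d i, by rw [expo_gen]; ring⟩, ?_⟩
  rintro _ ⟨u, hu, rfl⟩
  have := (norm_nonneg _).trans (h u hu)
  have := nonneg_of_mul_nonneg_right this hc
  linarith

theorem isSCD_U (d : ℕ → C(K, ℝ)) (hd : ∀ n, ‖d n‖ ≤ 1) : IsSCD (U d) := by
  obtain ⟨σ, hσ⟩ := exists_surjective_nat ((Fin 3 × ℕ) × ℕ)
  refine ⟨fun n => expo (σ n).1, fun n => 1 / (((σ n).2 : ℝ) + 1), fun n => by positivity,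
    fun n => ⟨⟨gen d (σ n).1, gen_mem d _, ?_⟩, fun u hu => hu.1⟩, ?_⟩
  · rw [sSup_expo d hd, expo_gen]
    have : (0 : ℝ) < 1 / (((σ n).2 : ℝ) + 1) := by positivity
    simpa using this
  · intro B hB
    refine U_subset d isClosed_closure (convex_convexHull ℝ B).closure fun i => ?_
    refine closure_mono (subset_convexHull ℝ B) ?_
    obtain ⟨c, hc, h⟩ := exposed d hd i
    rw [Metric.mem_closure_iff]
    intro ε hε
    obtain ⟨m, hm⟩ := exists_nat_one_div_lt (show 0 < ε / c by positivity)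
    obtain ⟨n, hn⟩ := hσ (i, m)
    obtain ⟨u, huB, huU, hu⟩ := hB n
    simp only [hn] at hu
    rw [sSup_expo d hd] at hu
    refine ⟨u, huB, ?_⟩
    rw [dist_comm, dist_eq_norm]
    calc ‖u - gen d i‖ ≤ c * (sq i ^ 2 - expo i u) := h u huU
      _ < c * (ε / c) := by
        gcongr
        linarith
      _ = ε := by field_simp

lemma vertex_mem (d : ℕ → C(K, ℝ))
    (hd : ∀ f : C(K, ℝ), ‖f‖ ≤ 1 → f ∈ closure (range d)) (j : Fin 3) (f : C(K, ℝ))
    (hf : ‖f‖ ≤ 1) : ((f, ((j : ℕ) : ℝ) - 1, (((j : ℕ) : ℝ) - 1) ^ 2) : E) ∈ U d := by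
  have h1 : ∀ n, ((d n, ((j : ℕ) : ℝ) - 1, (((j : ℕ) : ℝ) - 1) ^ 2) : E) ∈ U d := by
    intro n
    have hp : Tendsto (fun m => Nat.pair n m) atTop atTop :=
      tendsto_atTop_mono (fun m => Nat.right_le_pair n m) tendsto_id
    have h2 : Tendsto (fun m => 1 / (((Nat.pair n m : ℕ) : ℝ) + 2)) atTop (𝓝 0) :=
      tendsto_const_nhds.div_atTop
        (tendsto_atTop_add_const_right _ _ (tendsto_natCast_atTop_atTop.comp hp))
    have h3 : Tendsto (fun m => sq (j, Nat.pair n m)) atTop (𝓝 (((j : ℕ) : ℝ) - 1)) := by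
      simpa [sq] using h2.const_add (((j : ℕ) : ℝ) - 1)
    refine isClosed_closure.mem_of_tendsto (f := fun m => gen d (j, Nat.pair n m)) (b := atTop) ?_
      (Eventually.of_forall fun m => gen_mem d _)
    simp only [gen, Nat.unpair_pair]
    exact tendsto_const_nhds.prodMk_nhds (h3.prodMk_nhds (h3.pow 2))
  have h4 : IsClosed {g : C(K, ℝ) |
      ((g, ((j : ℕ) : ℝ) - 1, (((j : ℕ) : ℝ) - 1) ^ 2) : E) ∈ U d} :=
    isClosed_closure.preimage (by fun_prop)
  have h5 : range d ⊆ {g : C(K, ℝ) |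
      ((g, ((j : ℕ) : ℝ) - 1, (((j : ℕ) : ℝ) - 1) ^ 2) : E) ∈ U d} := range_subset_iff.2 h1
  exact closure_minimal h5 h4 (hd f hf)

lemma triangle_mem (d : ℕ → C(K, ℝ))
    (hd : ∀ f : C(K, ℝ), ‖f‖ ≤ 1 → f ∈ closure (range d)) (f : C(K, ℝ)) (hf : ‖f‖ ≤ 1)
    {a b : ℝ} (h1 : a < b) (h2 : -a < b) (h3 : b < 1) : ((f, a, b) : E) ∈ U d := by
  have := (convex_U d).sum_mem (t := Finset.univ) (w := ![(b - a) / 2, 1 - b, (b + a) / 2])
    (z := fun j : Fin 3 => ((f, ((j : ℕ) : ℝ) - 1, (((j : ℕ) : ℝ) - 1) ^ 2) : E))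
    (by
      intro j _
      fin_cases j <;> simp <;> linarith)
    (by simp [Fin.sum_univ_three]; ring)
    (fun j _ => vertex_mem d hd j f hf)
  convert this using 1
  rw [Fin.sum_univ_three]
  refine Prod.ext ?_ (Prod.ext ?_ ?_)
  · simp only [Prod.fst_add, Prod.smul_fst, ← add_smul]
    have : (![(b - a) / 2, 1 - b, (b + a) / 2] 0 + ![(b - a) / 2, 1 - b, (b + a) / 2] 1 +
        ![(b - a) / 2, 1 - b, (b + a) / 2] 2 : ℝ) = 1 := by
      simp; ring
    rw [this, one_smul]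
  · simp; ring
  · simp; ring

/-- Evaluation of the function component at a point. -/
noncomputable def ev (t : K) : StrongDual ℝ E :=
  (ContinuousMap.evalCLM ℝ t).comp (ContinuousLinearMap.fst ℝ C(K, ℝ) (ℝ × ℝ))

theorem not_piBasis (d : ℕ → C(K, ℝ)) (hd1 : ∀ n, ‖d n‖ ≤ 1)
    (hd : ∀ f : C(K, ℝ), ‖f‖ ≤ 1 → f ∈ closure (range d)) :
    ¬ HasCountablePiBasis (toWeakSpace ℝ E '' U d) := by
  rintro ⟨P, hPc, hP, hbasis⟩
  have h1 : ∀ p ∈ P, ∃ u : E, ∃ hu : u ∈ U d, ∃ Z : Set K, Z.Countable ∧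
      (⟨toWeakSpace ℝ E u, mem_image_of_mem _ hu⟩ : toWeakSpace ℝ E '' U d) ∈ p ∧
      ∀ t, t ∉ Z → ∃ k, ∀ hv : ((u.1 - cut u.1 t k, u.2) : E) ∈ U d,
        (⟨toWeakSpace ℝ E (u.1 - cut u.1 t k, u.2), mem_image_of_mem _ hv⟩ :
          toWeakSpace ℝ E '' U d) ∈ p := by
    intro p hp
    obtain ⟨hpo, ⟨_, u, hu, rfl⟩, hup⟩ := hP p hp
    obtain ⟨N, hN, rfl⟩ := isOpen_induced_iff.1 hpo
    obtain ⟨Φ, hΦ, hv⟩ := weak_nhds u N (hN.mem_nhds hup)
    refine ⟨u, hu, ⋃ φ ∈ Φ, {t : K | ¬ Tendsto (fun k =>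
      (φ.comp (ContinuousLinearMap.inl ℝ C(K, ℝ) (ℝ × ℝ))) (cut u.1 t k)) atTop (𝓝 0)},
      hΦ.countable.biUnion fun φ _ => countable_bad _ _, hup, fun t ht => ?_⟩
    obtain ⟨k, hk⟩ := (hv (fun k => (u.1 - cut u.1 t k, u.2)) fun φ hφ => by
      have h2 : Tendsto (fun k => (φ.comp (ContinuousLinearMap.inl ℝ C(K, ℝ) (ℝ × ℝ)))
          (cut u.1 t k)) atTop (𝓝 0) := by
        by_contra h
        exact ht (mem_iUnion₂.2 ⟨φ, hφ, h⟩)
      have h3 := h2.const_sub (φ u)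
      rw [sub_zero] at h3
      refine h3.congr fun k => ?_
      rw [ContinuousLinearMap.comp_apply, ← map_sub]
      congr 1
      ext <;> simp).exists
    exact ⟨k, fun _ => hk⟩
  choose! u hu Z hZ hup hcut using h1
  obtain ⟨t, ht⟩ : ∃ t : K, t ∉ ⋃ p ∈ P, Z p := by
    by_contra h
    push Not at h
    have : Uncountable K := by
      rw [← Cardinal.aleph0_lt_mk_iff]
      simpa using Cardinal.aleph0_lt_continuum
    exact not_countable_univ ((hPc.biUnion hZ).mono fun t _ => h t)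
  let O : Set (toWeakSpace ℝ E '' U d) := {x | 0 < ev t ((toWeakSpace ℝ E).symm x.1) ∧
    ca ((toWeakSpace ℝ E).symm x.1) < cb ((toWeakSpace ℝ E).symm x.1) ∧
    -ca ((toWeakSpace ℝ E).symm x.1) < cb ((toWeakSpace ℝ E).symm x.1) ∧
    cb ((toWeakSpace ℝ E).symm x.1) < 1}
  have c1 := (weak_continuous (ev t)).comp
    (continuous_subtype_val (p := fun x => x ∈ toWeakSpace ℝ E '' U d))
  have c2 := (weak_continuous ca).comp
    (continuous_subtype_val (p := fun x => x ∈ toWeakSpace ℝ E '' U d))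
  have c3 := (weak_continuous cb).comp
    (continuous_subtype_val (p := fun x => x ∈ toWeakSpace ℝ E '' U d))
  have hO : IsOpen O :=
    (isOpen_lt continuous_const c1).inter ((isOpen_lt c2 c3).inter
      ((isOpen_lt c2.neg c3).inter (isOpen_lt c3 continuous_const)))
  have hOne : O.Nonempty := by
    refine ⟨⟨toWeakSpace ℝ E (1, 0, 1 / 2), mem_image_of_mem _
      (triangle_mem d hd 1 (by simp) (by norm_num) (by norm_num) (by norm_num))⟩, ?_⟩
    simp [O, ev, ca, cb]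
    norm_num
  obtain ⟨p, hp, hpO⟩ := hbasis O hO hOne
  obtain ⟨k, hk⟩ := hcut p hp t fun h => ht (mem_iUnion₂.2 ⟨p, hp, h⟩)
  obtain ⟨-, a1, a2, a3⟩ := hpO (hup p hp)
  simp only [LinearEquiv.symm_apply_apply] at a1 a2 a3
  have hnorm : ‖(u p).1 - cut (u p).1 t k‖ ≤ 1 := by
    have h0 := U_fst d hd1 (hu p hp)
    rw [ContinuousMap.norm_le _ zero_le_one]
    intro s
    rw [ContinuousMap.sub_apply]
    by_cases hs : s ∈ cyl t k
    · rw [cut_apply_of_mem _ hs]; simp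
    · rw [cut_apply_of_notMem _ hs, sub_zero]
      exact ((u p).1.norm_coe_le_norm s).trans h0
  have hv : (((u p).1 - cut (u p).1 t k, (u p).2) : E) ∈ U d :=
    triangle_mem d hd _ hnorm a1 a2 a3
  have hpos := (hpO (hk hv)).1
  simp only [LinearEquiv.symm_apply_apply] at hpos
  have hz : ev t (((u p).1 - cut (u p).1 t k, (u p).2) : E) = 0 := by
    have : cut (u p).1 t k t = (u p).1 t := cut_apply_of_mem _ fun _ _ => rfl
    simp [ev, this]
  rw [hz] at hpos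
  exact lt_irrefl _ hpos

lemma exists_dense_seq : ∃ d : ℕ → C(K, ℝ), (∀ n, ‖d n‖ ≤ 1) ∧
    ∀ f : C(K, ℝ), ‖f‖ ≤ 1 → f ∈ closure (range d) := by
  have : Nonempty (Metric.closedBall (0 : C(K, ℝ)) 1) := ⟨⟨0, by simp⟩⟩
  obtain ⟨e, he⟩ := TopologicalSpace.exists_dense_seq (Metric.closedBall (0 : C(K, ℝ)) 1)
  refine ⟨fun n => (e n).1, fun n => mem_closedBall_zero_iff.1 (e n).2, fun f hf => ?_⟩
  have h1 := he ⟨f, by simpa using hf⟩
  have h2 := image_closure_subset_closure_image continuous_subtype_val (mem_image_of_mem _ h1)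
  rwa [← range_comp] at h2

theorem main : ∃ A : Set E, IsClosed A ∧ Convex ℝ A ∧ Bornology.IsBounded A ∧ IsSCD A ∧
    ¬ HasCountablePiBasis (toWeakSpace ℝ E '' A) := by
  obtain ⟨d, hd1, hd⟩ := exists_dense_seq
  exact ⟨U d, isClosed_closure, convex_U d, Metric.isBounded_closedBall.subset (U_bounded d hd1),
    isSCD_U d hd1, not_piBasis d hd1 hd⟩

end Pool.Agent.Lib.MP_349854_an
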